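import Pool.Agent.Helper6.LPB.St

/-!
# Project LPB, module LOL: the number of the classes for a good prime
-/

set_option autoImplicit false

noncomputable section

namespace Pool.Agent.Helper75.LPB

open Finset
open Pool.Agent.Helper60.LZ (js)
open Pool.Agent.Helper6.LP
open Pool.Agent.Helper6.LPB

private theorem affine_bij (l : ℕ) [Fact l.Prime] (a b : ZMod l) (ha : a ≠ 0) :
    Function.Bijective (fun s : ZMod l => a * s + b) := by
  rw [← Finite.injective_iff_bijective]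
  intro s t h
  have h1 : a * s = a * t := add_right_cancel h
  exact mul_left_cancel₀ ha h1

/-- the number of the classes -/
private theorem roots_card (l : ℕ) [Fact l.Prime] (h2 : l ≠ 2) (y : ℤ)
    (hy : (y : ZMod l) ≠ 0) (hy1 : (y : ZMod l) + 1 ≠ 0) (hy2 : 2 * (y : ZMod l) + 1 ≠ 0) :
    (((univ : Finset (ZMod l)).filter (fun s : ZMod l => (((y : ZMod l) + 1) * s - y) *
      (s ^ 2 + ((y : ZMod l) ^ 2 - 2 * y) * s + (y : ZMod l) ^ 2) = 0)).card : ℤ) =
      2 + jacobiSym ((y - 2) ^ 2 - 4) l := by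
  classical
  have h20 : (2 : ZMod l) ≠ 0 := by
    intro h
    have h' : ((2 : ℕ) : ZMod l) = 0 := by exact_mod_cast h
    rw [ZMod.natCast_eq_zero_iff] at h'
    exact h2 ((Nat.prime_dvd_prime_iff_eq Fact.out Nat.prime_two).1 h')
  have h40 : (4 : ZMod l) ≠ 0 := by
    have : (4 : ZMod l) = 2 * 2 := by norm_num
    rw [this]
    exact mul_ne_zero h20 h20
  have e : (univ : Finset (ZMod l)).filter (fun s : ZMod l => (((y : ZMod l) + 1) * s - y) *
      (s ^ 2 + ((y : ZMod l) ^ 2 - 2 * y) * s + (y : ZMod l) ^ 2) = 0) =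
      (univ : Finset (ZMod l)).filter (fun s : ZMod l => ((y : ZMod l) + 1) * s - y = 0) ∪
      (univ : Finset (ZMod l)).filter (fun s : ZMod l =>
        (s ^ 2 + ((y : ZMod l) ^ 2 - 2 * y) * s + (y : ZMod l) ^ 2) = 0) := by
    ext s
    simp only [mem_filter, mem_univ, true_and, mem_union, mul_eq_zero]
  have hd : Disjoint
      ((univ : Finset (ZMod l)).filter (fun s : ZMod l => ((y : ZMod l) + 1) * s - y = 0))
      ((univ : Finset (ZMod l)).filter (fun s : ZMod l =>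
        (s ^ 2 + ((y : ZMod l) ^ 2 - 2 * y) * s + (y : ZMod l) ^ 2) = 0)) := by
    rw [Finset.disjoint_left]
    intro s h1 h3
    have hA := (mem_filter.1 h1).2
    have hB := (mem_filter.1 h3).2
    have h4 : (y : ZMod l) ^ 3 * (2 * (y : ZMod l) + 1) = 0 := by
      linear_combination ((y : ZMod l) + 1) ^ 2 * hB - (((y : ZMod l) + 1) * s + y +
        ((y : ZMod l) ^ 2 - 2 * y) * ((y : ZMod l) + 1)) * hA
    rcases mul_eq_zero.1 h4 with h5 | h5
    · exact hy (pow_eq_zero_iff (by norm_num) |>.1 h5)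
    · exact hy2 h5
  have c1 : ((univ : Finset (ZMod l)).filter
      (fun s : ZMod l => ((y : ZMod l) + 1) * s - y = 0)).card = 1 := by
    have h3 := Finset.card_bijective (s := (univ : Finset (ZMod l)).filter
      (fun s : ZMod l => ((y : ZMod l) + 1) * s - y = 0)) (t := {0})
      (fun s : ZMod l => ((y : ZMod l) + 1) * s + (- y))
      (affine_bij l _ _ hy1) (fun s => by
        simp only [mem_filter, mem_univ, true_and, mem_singleton]
        constructor
        · intro h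
          linear_combination h
        · intro h
          linear_combination h)
    rw [h3, card_singleton]
  have hu : (y : ZMod l) * (y : ZMod l)⁻¹ = 1 := mul_inv_cancel₀ hy
  have c2 : (((univ : Finset (ZMod l)).filter (fun s : ZMod l =>
        (s ^ 2 + ((y : ZMod l) ^ 2 - 2 * y) * s + (y : ZMod l) ^ 2) = 0)).card : ℤ) =
      jacobiSym ((y - 2) ^ 2 - 4) l + 1 := by
    rw [← jacobiSym.legendreSym.to_jacobiSym, ← legendreSym.card_sqrts l h2]
    congr 1
    refine Finset.card_bijective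
      (fun s : ZMod l => (2 * (y : ZMod l)⁻¹) * s + ((y : ZMod l) ^ 2 - 2 * y) * (y : ZMod l)⁻¹)
      (affine_bij l _ _ (mul_ne_zero h20 (inv_ne_zero hy))) (fun s => ?_)
    simp only [mem_filter, mem_univ, true_and, Set.mem_toFinset, Set.mem_ofPred_eq]
    push_cast
    constructor
    · intro hB
      linear_combination 4 * (y : ZMod l)⁻¹ ^ 2 * hB +
        ((y : ZMod l) * (y : ZMod l)⁻¹ + 1) * (((y : ZMod l) - 2) ^ 2 - 4) * hu
    · intro h
      have h5 : 4 * (s ^ 2 + ((y : ZMod l) ^ 2 - 2 * y) * s +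
          (y : ZMod l) ^ 2) = 0 := by
        linear_combination (y : ZMod l) ^ 2 * h -
          (2 * s + (y : ZMod l) ^ 2 - 2 * y) ^ 2 *
            ((y : ZMod l) * (y : ZMod l)⁻¹ + 1) * hu
      rcases mul_eq_zero.1 h5 with h6 | h6
      · exact absurd h6 h40
      · exact h6
  rw [e, card_union_of_disjoint hd]
  push_cast
  rw [c1, c2]
  push_cast
  ring

private theorem range_card (l : ℕ) [Fact l.Prime] (Q : ZMod l → Prop) [DecidablePred Q] :
    ((range l).filter (fun s : ℕ => Q (s : ZMod l))).card = ((univ : Finset (ZMod l)).filter Q).card := by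
  refine Finset.card_nbij' (fun s : ℕ => (s : ZMod l)) ZMod.val ?_ ?_ ?_ ?_
  · intro s hs
    have h := (mem_filter.1 (by exact_mod_cast hs : s ∈ (range l).filter (fun s : ℕ => Q (s : ZMod l)))).2
    simp only [coe_filter, mem_univ, true_and, Set.mem_ofPred_eq]
    exact h
  · intro s hs
    have h : Q s := by
      simpa using hs
    simp only [coe_filter, mem_range, Set.mem_ofPred_eq]
    exact ⟨ZMod.val_lt s, by rwa [ZMod.natCast_zmod_val]⟩
  · intro s hs
    have h : s < l := by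
      have := (mem_filter.1 (by exact_mod_cast hs : s ∈ (range l).filter (fun s : ℕ => Q (s : ZMod l)))).1
      exact mem_range.1 this
    exact ZMod.val_cast_of_lt h
  · intro s _
    exact ZMod.natCast_zmod_val s

private theorem SS_card {y l : ℕ} (hp : l.Prime) (hl : 32 < l) (hy : 5 ≤ y)
    (hg : ¬ l ∣ y * (y + 1) * (2 * y + 1)) :
    ((SS 1 0 y l).card : ℝ) = 2 + js (y - 2) l := by
  classical
  have : Fact l.Prime := ⟨hp⟩
  have hy0 : ((y : ℤ) : ZMod l) ≠ 0 := by
    intro h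
    have h' : ((y : ℕ) : ZMod l) = 0 := by exact_mod_cast h
    rw [ZMod.natCast_eq_zero_iff] at h'
    exact hg (Dvd.dvd.mul_right (Dvd.dvd.mul_right h' _) _)
  have hy1 : ((y : ℤ) : ZMod l) + 1 ≠ 0 := by
    intro h
    have h' : ((y + 1 : ℕ) : ZMod l) = 0 := by
      push_cast
      exact_mod_cast h
    rw [ZMod.natCast_eq_zero_iff] at h'
    exact hg (Dvd.dvd.mul_right (Dvd.dvd.mul_left h' _) _)
  have hy2 : 2 * ((y : ℤ) : ZMod l) + 1 ≠ 0 := by
    intro h
    have h' : ((2 * y + 1 : ℕ) : ZMod l) = 0 := by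
      push_cast
      exact_mod_cast h
    rw [ZMod.natCast_eq_zero_iff] at h'
    exact hg (Dvd.dvd.mul_left h' _)
  have hc := roots_card l (by omega) (y : ℤ) hy0 hy1 hy2
  have hr := range_card l (fun s : ZMod l => ((((y : ℤ) : ZMod l) + 1) * s - ((y : ℤ) : ZMod l)) *
      (s ^ 2 + (((y : ℤ) : ZMod l) ^ 2 - 2 * ((y : ℤ) : ZMod l)) * s + ((y : ℤ) : ZMod l) ^ 2) = 0)
  have e : SS 1 0 y l = (range l).filter (fun s : ℕ => ((((y : ℤ) : ZMod l) + 1) * (s : ZMod l) - ((y : ℤ) : ZMod l)) *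
      ((s : ZMod l) ^ 2 + (((y : ℤ) : ZMod l) ^ 2 - 2 * ((y : ℤ) : ZMod l)) * (s : ZMod l) + ((y : ℤ) : ZMod l) ^ 2) = 0) := by
    unfold SS ff fa fb
    ext s
    simp only [mem_filter]
    refine and_congr_right fun _ => ?_
    rw [← ZMod.intCast_zmod_eq_zero_iff_dvd]
    have h : ((((((0 : ℕ) : ℤ) + ((1 : ℕ) : ℤ) * (s : ℤ)) - (y : ℤ) + (((0 : ℕ) : ℤ) + ((1 : ℕ) : ℤ) * (s : ℤ)) * (y : ℤ)) *
      (((((0 : ℕ) : ℤ) + ((1 : ℕ) : ℤ) * (s : ℤ)) - (y : ℤ)) ^ 2 + (((0 : ℕ) : ℤ) + ((1 : ℕ) : ℤ) * (s : ℤ)) * (y : ℤ) ^ 2) : ℤ) : ZMod l) =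
      ((((y : ℤ) : ZMod l) + 1) * (s : ZMod l) - ((y : ℤ) : ZMod l)) *
      ((s : ZMod l) ^ 2 + (((y : ℤ) : ZMod l) ^ 2 - 2 * ((y : ℤ) : ZMod l)) * (s : ZMod l) + ((y : ℤ) : ZMod l) ^ 2) := by
      push_cast
      ring
    rw [h]
  have hJ : ((SS 1 0 y l).card : ℤ) = 2 + jacobiSym (((y : ℤ) - 2) ^ 2 - 4) l := by
    rw [e, hr]
    exact hc
  have ht : ((y - 2 : ℕ) : ℤ) = (y : ℤ) - 2 := by omega
  unfold js
  rw [ht]
  exact_mod_cast hJ

theorem hLOL : StLOL := by
  intro y l hp hl hy hg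
  refine le_of_eq (SS_card hp hl hy ?_).symm
  intro h
  apply hg
  rcases (Nat.Prime.dvd_mul hp).1 h with h1 | h1
  · rcases (Nat.Prime.dvd_mul hp).1 h1 with h2 | h2
    · exact Dvd.dvd.mul_right (Dvd.dvd.mul_right (Dvd.dvd.mul_right h2 _) _) _
    · exact Dvd.dvd.mul_right (Dvd.dvd.mul_left h2 _) _
  · exact Dvd.dvd.mul_left h1 _

end Pool.Agent.Helper75.LPB
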